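import Pool.Agent.MP_d3fa2a_an.Q4.Defs

namespace Pool.Agent.MP_d3fa2a_an.Q4

open Complex Metric Set ComplexConjugate

theorem key_NecZ (N : ℝ) (c A B : ℂ) :
    ‖N * A + c * B‖ ^ 2 - ‖N * B + conj c * A‖ ^ 2 = (N ^ 2 - ‖c‖ ^ 2) * (‖A‖ ^ 2 - ‖B‖ ^ 2) := by
  simp only [Complex.sq_norm, normSq_apply, add_re, add_im, mul_re, mul_im, ofReal_re, ofReal_im,
    conj_re, conj_im]
  ring

theorem sc_NecZ {N : ℝ} {c A B : ℂ} (hc : ‖c‖ ^ 2 ≤ N ^ 2) (hB : ‖B‖ ≤ ‖A‖) :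
    ‖N * B + conj c * A‖ ≤ ‖N * A + c * B‖ := by
  have h := key_NecZ N c A B
  have h2 : ‖B‖ ^ 2 ≤ ‖A‖ ^ 2 := by gcongr
  have h3 : 0 ≤ (N ^ 2 - ‖c‖ ^ 2) * (‖A‖ ^ 2 - ‖B‖ ^ 2) := mul_nonneg (by linarith) (by linarith)
  exact le_of_sq_le_sq (by linarith) (norm_nonneg _)

theorem ne_NecZ {A B : ℂ} (h : ‖B‖ < ‖A‖) : A + B ≠ 0 := by
  intro h0
  have : B = -A := by linear_combination h0
  rw [this, norm_neg] at h
  exact lt_irrefl _ h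

/-- two steps of the Schur-Cohn recursion for a cubic -/
theorem cub_NecZ {N m₁ m₂ g : ℝ} {a z : ℂ} (hN : 0 < N) (hg : |g| ≤ 1)
    (hn : 0 < N ^ 2 - m₂ ^ 2 * ‖a‖ ^ 2)
    (hk : ‖m₁ * (N * a - m₂ * conj a ^ 2)‖ ^ 2 ≤ (N ^ 2 - m₂ ^ 2 * ‖a‖ ^ 2) ^ 2) (hz : ‖z‖ < 1) :
    (N + m₁ * a * z + m₂ * conj a * z ^ 2) + g * z * (m₂ * a + m₁ * conj a * z + N * z ^ 2)
      ≠ 0 := by
  set n : ℝ := N ^ 2 - m₂ ^ 2 * ‖a‖ ^ 2 with hndef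
  set k : ℂ := m₁ * (N * a - m₂ * conj a ^ 2) with hkdef
  have haa : a * conj a = ((‖a‖ : ℝ) : ℂ) ^ 2 := by
    rw [Complex.mul_conj, Complex.normSq_eq_norm_sq]; push_cast; rfl
  have hnc : (n : ℂ) = N ^ 2 - m₂ ^ 2 * (a * conj a) := by
    rw [haa, hndef]; push_cast; rfl
  have hkc : conj k = m₁ * (N * conj a - m₂ * a ^ 2) := by
    simp [hkdef]
  have hz1 : ‖z‖ ≤ ‖(1 : ℂ)‖ := by simpa using hz.le
  have hL : ‖n * z + conj k * 1‖ ≤ ‖n * 1 + k * z‖ := sc_NecZ hk hz1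
  have hk' : ‖k‖ ≤ n := le_of_sq_le_sq hk hn.le
  have hL0 : (n : ℂ) * 1 + k * z ≠ 0 := by
    apply ne_NecZ
    rw [norm_mul, mul_one, Complex.norm_real, Real.norm_of_nonneg hn.le]
    calc ‖k‖ * ‖z‖ ≤ n * ‖z‖ := by gcongr
      _ < n := by nlinarith [norm_nonneg z]
  set L : ℂ := n * 1 + k * z with hLdef
  set Ls : ℂ := n * z + conj k * 1 with hLsdef
  have hLp : 0 < ‖L‖ := norm_pos_iff.mpr hL0
  have hB : ‖z * Ls‖ ≤ ‖L‖ := by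
    rw [norm_mul]; nlinarith [norm_nonneg z, norm_nonneg Ls]
  have hc : ‖(m₂ : ℂ) * conj a‖ ^ 2 = m₂ ^ 2 * ‖a‖ ^ 2 := by
    rw [norm_mul, RCLike.norm_conj, Complex.norm_real, mul_pow, Real.norm_eq_abs, sq_abs]
  have hc1 : ‖(m₂ : ℂ) * conj a‖ ^ 2 < N ^ 2 := by rw [hc]; linarith
  have hc2 : ‖(m₂ : ℂ) * conj a‖ < N := lt_of_pow_lt_pow_left₀ 2 hN.le hc1
  have hQ := sc_NecZ hc1.le hB
  have hQ0 : (N : ℂ) * L + m₂ * conj a * (z * Ls) ≠ 0 := by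
    apply ne_NecZ
    rw [norm_mul (_ * _), norm_mul (N : ℂ), Complex.norm_real, Real.norm_of_nonneg hN.le]
    calc ‖(m₂ : ℂ) * conj a‖ * ‖z * Ls‖ ≤ ‖(m₂ : ℂ) * conj a‖ * ‖L‖ := by gcongr
      _ < N * ‖L‖ := by gcongr
  have hQp : 0 < ‖(N : ℂ) * L + m₂ * conj a * (z * Ls)‖ := norm_pos_iff.mpr hQ0
  have hfin : ((N : ℂ) * L + m₂ * conj a * (z * Ls)) +
      g * z * (N * (z * Ls) + conj ((m₂ : ℂ) * conj a) * L) ≠ 0 := by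
    apply ne_NecZ
    rw [norm_mul, norm_mul, Complex.norm_real, Real.norm_eq_abs]
    calc |g| * ‖z‖ * ‖N * (z * Ls) + conj ((m₂ : ℂ) * conj a) * L‖
        ≤ 1 * ‖z‖ * ‖(N : ℂ) * L + m₂ * conj a * (z * Ls)‖ := by gcongr
      _ < _ := by nlinarith [norm_nonneg z]
  intro h0
  apply hfin
  have e1 : conj ((m₂ : ℂ) * conj a) = m₂ * a := by simp
  rw [e1, hLdef, hLsdef, hkc, hkdef, hnc]
  linear_combination ((N : ℂ) ^ 2 - m₂ ^ 2 * (a * conj a)) * h0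

theorem s_necZ : S_necZ := by
  intro X Y hE u h0 h2 z hz
  set a : ℂ := ⟨X, Y⟩ with ha
  set s : ℝ := √15 with hs
  have hs2 : s ^ 2 = 15 := Real.sq_sqrt (by norm_num)
  have hs0 : 0 ≤ s := Real.sqrt_nonneg _
  have hsl : 3.8729 < s := by nlinarith
  have hsh : s < 3.873 := by nlinarith
  have hrho : ‖a‖ ^ 2 = 27 * (s - 3) / 16 := by
    rw [Complex.sq_norm, normSq_apply, ← hE.n]; simp only [ha]; ring
  set w : ℝ := u ^ 2 with hw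
  have hw0 : 0 ≤ w := sq_nonneg u
  have hw4 : w ≤ 4 := by nlinarith
  have hN : 0 < (w ^ 2 + 4) / 16 := by positivity
  have hg : |(u ^ 3 - 2 * u) / 4| ≤ 1 := by
    rw [abs_le]
    constructor
    · nlinarith [mul_nonneg h0 (sq_nonneg (u - 1))]
    · nlinarith [mul_nonneg (sub_nonneg.mpr h2) (sq_nonneg (u + 1))]
  have hn : 0 < ((w ^ 2 + 4) / 16) ^ 2 - ((3 * w - 2) / 12) ^ 2 * ‖a‖ ^ 2 := by
    have e : ((w ^ 2 + 4) / 16) ^ 2 - ((3 * w - 2) / 12) ^ 2 * ‖a‖ ^ 2 =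
        (w * (w ^ 3 + (89 - 27 * s) * w + (36 * s - 108)) + (52 - 12 * s)) / 256 := by
      rw [hrho]; ring
    have q : 0 ≤ w ^ 3 + (89 - 27 * s) * w + (36 * s - 108) := by
      nlinarith [mul_nonneg (sq_nonneg (w - 9 / 4)) (by linarith : 0 ≤ w + 9 / 2),
        mul_nonneg hw0 (sub_nonneg.mpr hsh.le)]
    rw [e]
    have := mul_nonneg hw0 q
    apply div_pos _ (by norm_num)
    linarith
  have hk : ‖((u * (1 + w) / 6 : ℝ) : ℂ) * ((((w ^ 2 + 4) / 16 : ℝ) : ℂ) * a -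
      (((3 * w - 2) / 12 : ℝ) : ℂ) * conj a ^ 2)‖ ^ 2 ≤
      (((w ^ 2 + 4) / 16) ^ 2 - ((3 * w - 2) / 12) ^ 2 * ‖a‖ ^ 2) ^ 2 := by
    have e1 : ∀ m₁ N m₂ : ℝ, ‖(m₁ : ℂ) * ((N : ℂ) * a - (m₂ : ℂ) * conj a ^ 2)‖ ^ 2 =
        m₁ ^ 2 * (N ^ 2 * (X ^ 2 + Y ^ 2) - 2 * N * m₂ * (X ^ 3 - 3 * X * Y ^ 2)
          + m₂ ^ 2 * (X ^ 2 + Y ^ 2) ^ 2) := by
      intro m₁ N m₂
      rw [Complex.sq_norm, pow_two (conj a)]
      simp only [normSq_apply, sub_re, sub_im, mul_re, mul_im, ofReal_re,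
        ofReal_im, conj_re, conj_im, ha]
      ring
    have e2 : (u * (1 + w) / 6) ^ 2 = w * (1 + w) ^ 2 / 36 := by rw [hw]; ring
    rw [e1, hE.n, hE.c, hrho, e2, ← hs]
    have P : 0 ≤ w ^ 4 + (42 - 12 * s) * w ^ 3 + (1220 - 312 * s) * w ^ 2 + (168 - 48 * s) * w
        + (4864 - 1248 * s) := by
      have t := sub_nonneg.mpr hsh.le
      nlinarith [mul_nonneg hw0 t, mul_nonneg (pow_nonneg hw0 2) t,
        mul_nonneg (pow_nonneg hw0 3) t, sq_nonneg (w ^ 2 - 2.24 * w + 1), pow_nonneg hw0 3,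
        sq_nonneg (w - 3 / 2)]
    have id : 65536 * ((((w ^ 2 + 4) / 16) ^ 2 - ((3 * w - 2) / 12) ^ 2 * (27 * (s - 3) / 16)) ^ 2
        - w * (1 + w) ^ 2 / 36 * (((w ^ 2 + 4) / 16) ^ 2 * (27 * (s - 3) / 16)
          - 2 * ((w ^ 2 + 4) / 16) * ((3 * w - 2) / 12) * (729 * (9 - 2 * s) / 512)
          + ((3 * w - 2) / 12) ^ 2 * (27 * (s - 3) / 16) ^ 2)) =
        (w ^ 2 - 3 * w + 1) ^ 2 * (w ^ 4 + (42 - 12 * s) * w ^ 3 + (1220 - 312 * s) * w ^ 2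
          + (168 - 48 * s) * w + (4864 - 1248 * s)) := by
      linear_combination (65536 * (27 / 16) ^ 2 * ((3 * w - 2) / 12) ^ 2 *
        (((3 * w - 2) / 12) ^ 2 - w * (1 + w) ^ 2 / 36)) * hs2
    have := mul_nonneg (sq_nonneg (w ^ 2 - 3 * w + 1)) P
    linarith
  have h := cub_NecZ hN hg hn hk hz
  intro hf
  apply h
  simp only [f, dq, face] at hf
  rw [hw]
  push_cast
  linear_combination ((((u : ℂ) ^ 2) ^ 2 + 4) / 16) * hf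

end Pool.Agent.MP_d3fa2a_an.Q4
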