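import Pool.Agent.MP_d3fa2a_an.Q4.Defs

namespace Pool.Agent.MP_d3fa2a_an.Q4

open Complex Metric Set ComplexConjugate

theorem ne_Walsh {a : ℂ} (h : ‖a‖ < 1) : 1 + a ≠ 0 := by
  intro h0
  have : a = -1 := by linear_combination h0
  rw [this] at h
  simp at h

theorem le_of_sq_le_sq_Walsh {a b : ℂ} (h : ‖a‖ ^ 2 ≤ ‖b‖ ^ 2) : ‖a‖ ≤ ‖b‖ :=
  (pow_le_pow_iff_left₀ (norm_nonneg _) (norm_nonneg _) two_ne_zero).1 h

theorem lag_Walsh {x w y : ℂ} (hx : ‖x‖ < 1) (hw : ‖w‖ < 1) (hy : ‖y‖ ≤ 1) :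
    0 < ((1 + y * w) / (1 + y * x) * ((1 - x * conj x) / (1 - w * conj x))).re := by
  have ha : 1 + y * x ≠ 0 := ne_Walsh (by
    rw [norm_mul]; nlinarith [norm_nonneg x, norm_nonneg y])
  have hb : 1 - w * conj x ≠ 0 := by
    have := ne_Walsh (a := -(w * conj x)) (by
      rw [norm_neg, norm_mul, RCLike.norm_conj]; nlinarith [norm_nonneg x, norm_nonneg w])
    rwa [← sub_eq_add_neg] at this
  have e : (1 + y * w) / (1 + y * x) * ((1 - x * conj x) / (1 - w * conj x)) =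
      1 + (w - x) / (1 - w * conj x) * ((y + conj x) / (1 + y * x)) := by
    field_simp
    ring
  have sx : normSq x < 1 := by rw [normSq_eq_norm_sq]; nlinarith [norm_nonneg x]
  have sw : normSq w < 1 := by rw [normSq_eq_norm_sq]; nlinarith [norm_nonneg w]
  have sy : normSq y ≤ 1 := by rw [normSq_eq_norm_sq]; nlinarith [norm_nonneg y]
  have h1 : ‖w - x‖ < ‖1 - w * conj x‖ := by
    apply lt_of_pow_lt_pow_left₀ 2 (norm_nonneg _)
    rw [← normSq_eq_norm_sq, ← normSq_eq_norm_sq]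
    have : normSq (1 - w * conj x) - normSq (w - x) = (1 - normSq w) * (1 - normSq x) := by
      simp only [normSq_apply, sub_re, sub_im, mul_re, mul_im, conj_re, conj_im, one_re, one_im]
      ring
    nlinarith [mul_pos (sub_pos.2 sw) (sub_pos.2 sx)]
  have h2 : ‖y + conj x‖ ≤ ‖1 + y * x‖ := by
    apply le_of_sq_le_sq_Walsh
    rw [← normSq_eq_norm_sq, ← normSq_eq_norm_sq]
    have : normSq (1 + y * x) - normSq (y + conj x) = (1 - normSq y) * (1 - normSq x) := by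
      simp only [normSq_apply, add_re, add_im, mul_re, mul_im, conj_re, conj_im, one_re, one_im]
      ring
    nlinarith [mul_nonneg (sub_nonneg.2 sy) (sub_pos.2 sx).le]
  have h3 : ‖(w - x) / (1 - w * conj x) * ((y + conj x) / (1 + y * x))‖ < 1 := by
    rw [norm_mul, norm_div, norm_div]
    have a1 : ‖w - x‖ / ‖1 - w * conj x‖ < 1 := (div_lt_one (norm_pos_iff.2 hb)).2 h1
    have a2 : ‖y + conj x‖ / ‖1 + y * x‖ ≤ 1 := (div_le_one (norm_pos_iff.2 ha)).2 h2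
    have a3 : 0 ≤ ‖w - x‖ / ‖1 - w * conj x‖ := by positivity
    nlinarith
  rw [e, add_re, one_re]
  have := (abs_le.1 (abs_re_le_norm ((w - x) / (1 - w * conj x) * ((y + conj x) / (1 + y * x))))).1
  linarith

theorem lagc_Walsh {x w : ℂ} (hx : ‖x‖ ≤ 1) (hw : ‖w‖ ≤ 1) {r : ℝ} (h0 : 0 < r) (h1 : r < 1) :
    ∃ c : ℂ, ∀ y : ℂ, ‖y‖ ≤ r → 1 + y * x ≠ 0 ∧ 0 < ((1 + y * w) / (1 + y * x) * c).re := by
  refine ⟨(1 - r * x * conj (r * x)) / (1 - r * w * conj (r * x)), fun y hy => ⟨ne_Walsh ?_, ?_⟩⟩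
  · rw [norm_mul]; nlinarith [norm_nonneg x, norm_nonneg y]
  have hr : (r : ℂ) ≠ 0 := by exact_mod_cast h0.ne'
  have hn : ‖(r : ℂ)‖ = r := by rw [norm_real, Real.norm_of_nonneg h0.le]
  have := lag_Walsh (x := r * x) (w := r * w) (y := y / r)
    (by rw [norm_mul, hn]; nlinarith [norm_nonneg x])
    (by rw [norm_mul, hn]; nlinarith [norm_nonneg w])
    (by rw [norm_div, hn]; exact (div_le_one h0).2 hy)
  have e : ∀ t : ℂ, y / r * (r * t) = y * t := fun t => by field_simp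
  rwa [e, e] at this

theorem sum3_Walsh {x w y₁ y₂ y₃ : ℂ} (hx : ‖x‖ ≤ 1) (hw : ‖w‖ ≤ 1) (h₁ : ‖y₁‖ < 1)
    (h₂ : ‖y₂‖ < 1) (h₃ : ‖y₃‖ < 1) :
    (1 + y₁ * w) * (1 + y₂ * x) * (1 + y₃ * x) + (1 + y₁ * x) * (1 + y₂ * w) * (1 + y₃ * x) +
      (1 + y₁ * x) * (1 + y₂ * x) * (1 + y₃ * w) ≠ 0 := by
  obtain ⟨c, hc⟩ := lagc_Walsh hx hw (r := max (max (max ‖y₁‖ ‖y₂‖) ‖y₃‖) (1 / 2))
    (lt_max_of_lt_right (by norm_num)) (max_lt (max_lt (max_lt h₁ h₂) h₃) (by norm_num))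
  obtain ⟨a1, b1⟩ := hc y₁ (by simp)
  obtain ⟨a2, b2⟩ := hc y₂ (by simp)
  obtain ⟨a3, b3⟩ := hc y₃ (by simp)
  intro h
  have : (1 + y₁ * w) / (1 + y₁ * x) * c + (1 + y₂ * w) / (1 + y₂ * x) * c +
      (1 + y₃ * w) / (1 + y₃ * x) * c = 0 := by
    generalize 1 + y₁ * x = A at *
    generalize 1 + y₂ * x = B at *
    generalize 1 + y₃ * x = C at *
    field_simp
    linear_combination c * h
  have := congrArg re this
  simp only [add_re, zero_re] at this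
  linarith

theorem sum2_Walsh {x w y₁ y₂ : ℂ} (hx : ‖x‖ ≤ 1) (hw : ‖w‖ ≤ 1) (h₁ : ‖y₁‖ < 1)
    (h₂ : ‖y₂‖ < 1) : (1 + y₁ * w) * (1 + y₂ * x) + (1 + y₁ * x) * (1 + y₂ * w) ≠ 0 := by
  obtain ⟨c, hc⟩ := lagc_Walsh hx hw (r := max (max ‖y₁‖ ‖y₂‖) (1 / 2))
    (lt_max_of_lt_right (by norm_num)) (max_lt (max_lt h₁ h₂) (by norm_num))
  obtain ⟨a1, b1⟩ := hc y₁ (by simp)
  obtain ⟨a2, b2⟩ := hc y₂ (by simp)
  intro h
  have : (1 + y₁ * w) / (1 + y₁ * x) * c + (1 + y₂ * w) / (1 + y₂ * x) * c = 0 := by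
    generalize 1 + y₁ * x = A at *
    generalize 1 + y₂ * x = B at *
    field_simp
    linear_combination c * h
  have := congrArg re this
  simp only [add_re, zero_re] at this
  linarith

theorem root_Walsh {y : ℂ} (h : ∀ x : ℂ, ‖x‖ ≤ 1 → 1 + y * x ≠ 0) : ‖y‖ < 1 := by
  by_contra hy
  have hy := not_lt.1 hy
  have h0 : y ≠ 0 := by
    rintro rfl
    norm_num at hy
  refine h (-y⁻¹) ?_ (by field_simp; ring)
  rw [norm_neg, norm_inv]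
  exact inv_le_one_of_one_le₀ hy

theorem s_walsh (hf : S_fac) : S_walsh := by
  intro A₀ A₁ A₂ A₃ x₁ x₂ x₃ h₁ h₂ h₃ hF
  by_contra hn
  have hG : ∀ x : ℂ, ‖x‖ ≤ 1 → A₀ + A₁ * x + A₂ * x ^ 2 + A₃ * x ^ 3 ≠ 0 :=
    fun x hx h => hn ⟨x, hx, h⟩
  have hA : A₀ ≠ 0 := by simpa using hG 0 (by simp)
  obtain ⟨y₁, y₂, y₃, -, -, -, e1, e2, e3⟩ := hf (A₁ / A₀, A₂ / A₀, A₃ / A₀) (by
    intro z hz h
    apply hG z hz.le
    simp only [f] at h
    field_simp at h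
    linear_combination h)
  simp only [] at e1 e2 e3
  rw [div_eq_iff hA] at e1 e2 e3
  have hP : ∀ x : ℂ, ‖x‖ ≤ 1 → (1 + y₁ * x) * (1 + y₂ * x) * (1 + y₃ * x) ≠ 0 := by
    intro x hx h
    apply hG x hx
    rw [e1, e2, e3]
    linear_combination A₀ * h
  have n1 : ‖y₁‖ < 1 := root_Walsh fun x hx h => hP x hx (by rw [h]; ring)
  have n2 : ‖y₂‖ < 1 := root_Walsh fun x hx h => hP x hx (by rw [h]; ring)
  have n3 : ‖y₃‖ < 1 := root_Walsh fun x hx h => hP x hx (by rw [h]; ring)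
  obtain ⟨B₀, hB₀⟩ : ∃ B, B = A₀ + A₁ * x₃ / 3 := ⟨_, rfl⟩
  obtain ⟨B₁, hB₁⟩ : ∃ B, B = 2 * A₁ / 3 + 2 * A₂ * x₃ / 3 := ⟨_, rfl⟩
  obtain ⟨B₂, hB₂⟩ : ∃ B, B = A₂ / 3 + A₃ * x₃ := ⟨_, rfl⟩
  have hH : ∀ x : ℂ, ‖x‖ ≤ 1 → B₀ + B₁ * x + B₂ * x ^ 2 ≠ 0 := by
    intro x hx h
    have := sum3_Walsh hx h₃ n1 n2 n3
    apply mul_ne_zero hA this
    rw [hB₀, hB₁, hB₂, e1, e2, e3] at h
    linear_combination 3 * h
  have hB : B₀ ≠ 0 := by simpa using hH 0 (by simp)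
  obtain ⟨s, hs⟩ := IsAlgClosed.exists_eq_mul_self ((B₁ / B₀) ^ 2 - 4 * (B₂ / B₀))
  obtain ⟨v₁, hv₁⟩ : ∃ v, v = (B₁ / B₀ + s) / 2 := ⟨_, rfl⟩
  obtain ⟨v₂, hv₂⟩ : ∃ v, v = (B₁ / B₀ - s) / 2 := ⟨_, rfl⟩
  have f1' : B₁ = (v₁ + v₂) * B₀ := by
    rw [← div_eq_iff hB, hv₁, hv₂]; ring
  have f2' : B₂ = (v₁ * v₂) * B₀ := by
    rw [← div_eq_iff hB, hv₁, hv₂]; linear_combination -hs / 4
  have hQ : ∀ x : ℂ, ‖x‖ ≤ 1 → (1 + v₁ * x) * (1 + v₂ * x) ≠ 0 := by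
    intro x hx h
    apply hH x hx
    rw [f1', f2']
    linear_combination B₀ * h
  have m1 : ‖v₁‖ < 1 := root_Walsh fun x hx h => hQ x hx (by rw [h]; ring)
  have m2 : ‖v₂‖ < 1 := root_Walsh fun x hx h => hQ x hx (by rw [h]; ring)
  apply mul_ne_zero hB (sum2_Walsh h₁ h₂ m1 m2)
  have hF' : B₀ + B₁ * (x₁ + x₂) / 2 + B₂ * (x₁ * x₂) = 0 := by
    rw [hB₀, hB₁, hB₂]; linear_combination hF
  rw [f1', f2'] at hF'
  linear_combination 2 * hF'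

theorem s_wal2 (hf : S_fac) (hw : S_walsh) : S_wal2 := by
  intro p hp
  obtain ⟨x₁, x₂, x₃, n1, n2, n3, e1, e2, e3⟩ := hf _ hp
  simp only [dq, ofReal_ofNat] at e1 e2 e3
  have key : ∀ z : ℂ, ‖z‖ ≤ 1 → ∀ a b c : ℂ, a + b * f p z + c * (f p z + z * f1 p z) = 0 →
      ∃ x : ℂ, ‖x‖ ≤ 1 ∧ a + b * ((x + 2) * ((1 + x) ^ 2 + 1) / 4) + c * (1 + x) ^ 3 = 0 := by
    intro z hz a b c h
    have nz : ∀ t : ℂ, ‖t‖ ≤ 1 → ‖t * z‖ ≤ 1 := fun t ht => by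
      rw [norm_mul]; exact mul_le_one₀ ht (norm_nonneg _) hz
    obtain ⟨x, hx, h'⟩ := hw (a + b + c) (3 / 2 * b + 3 * c) (b + 3 * c) (b / 4 + c)
      (x₁ * z) (x₂ * z) (x₃ * z) (nz _ n1) (nz _ n2) (nz _ n3) (by
        simp only [f, f1] at h
        linear_combination h - (b / 2 + c) * z * e1 - (b / 3 + c) * z ^ 2 * e2 -
          (b / 4 + c) * z ^ 3 * e3)
    exact ⟨x, hx, by linear_combination h'⟩
  have sq : ∀ x : ℂ, ‖x‖ ≤ 1 → x.re ^ 2 + x.im ^ 2 ≤ 1 := by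
    intro x hx
    have : normSq x ≤ 1 := by rw [normSq_eq_norm_sq]; nlinarith [norm_nonneg x]
    rw [normSq_apply] at this
    nlinarith
  have hS : Sl p := by
    intro z hz
    by_contra hn
    rw [mem_slitPlane_iff, not_or, not_lt, not_not] at hn
    obtain ⟨x, hx, h⟩ := key z hz (-f p z) 1 0 (by ring)
    have h4 : 4 * f p z = (x + 2) * ((1 + x) * (1 + x) + 1) := by linear_combination -4 * h
    have hr := congrArg re h4
    have hi := congrArg im h4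
    simp only [mul_re, mul_im, add_re, add_im, one_re, one_im, re_ofNat, im_ofNat, hn.2] at hr hi
    have hs := sq x hx
    have hv : x.im * (6 + 8 * x.re + 3 * x.re ^ 2 - x.im ^ 2) = 0 := by linear_combination -hi
    rcases mul_eq_zero.1 hv with h0 | h0
    · rw [h0] at hr hs
      have : -1 ≤ x.re := by nlinarith
      have h5 : 0 < (x.re + 2) * ((1 + x.re) ^ 2 + 1) :=
        mul_pos (by linarith) (by positivity)
      nlinarith [hn.1]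
    · nlinarith [sq_nonneg (x.re + 1)]
  refine ⟨hS, fun z hz => ?_⟩
  have h0 : f p z ≠ 0 := slitPlane_ne_zero (hS z hz)
  obtain ⟨x, hx, h⟩ := key z hz 0 (-(f p z + z * f1 p z)) (f p z) (by ring)
  have h4 : (f p z + z * f1 p z) * ((1 + x + 1) * ((1 + x) * (1 + x) + 1)) =
      4 * f p z * (1 + x) ^ 3 := by linear_combination -4 * h
  have h5 := congrArg normSq h4
  rw [normSq_mul, normSq_mul, normSq_mul, normSq_mul, map_pow] at h5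
  rw [← normSq_eq_norm_sq, ← normSq_eq_norm_sq]
  have h6 : normSq (4 : ℂ) = 16 := by rw [normSq_apply]; norm_num
  rw [h6] at h5
  have hs := sq x hx
  obtain ⟨w, hw'⟩ : ∃ w, w = normSq (1 + x) := ⟨_, rfl⟩
  have w0 : 0 ≤ w := hw' ▸ normSq_nonneg _
  have w1 : w = (1 + x.re) ^ 2 + x.im ^ 2 := by
    rw [hw', normSq_apply]; simp; ring
  have w2 : w ≤ 2 * (1 + x.re) := by nlinarith
  have a1 : 2 * w + 1 ≤ normSq (1 + x + 1) := by
    have : normSq (1 + x + 1) = w + 2 * (1 + x.re) + 1 := by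
      rw [w1, normSq_apply]; simp; ring
    linarith
  have a2 : (w - 1) ^ 2 + w ^ 2 ≤ normSq ((1 + x) * (1 + x) + 1) := by
    have : normSq ((1 + x) * (1 + x) + 1) = (w - 1) ^ 2 + (2 * (1 + x.re)) ^ 2 := by
      rw [w1, normSq_apply]; simp; ring
    have h7 : w ^ 2 ≤ (2 * (1 + x.re)) ^ 2 := pow_le_pow_left₀ w0 w2 2
    linarith
  have a3 : (2 * w + 1) * ((w - 1) ^ 2 + w ^ 2) ≤
      normSq (1 + x + 1) * normSq ((1 + x) * (1 + x) + 1) :=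
    mul_le_mul a1 a2 (by positivity) (normSq_nonneg _)
  have a4 : 16 * w ^ 3 ≤ 11 / 2 * ((2 * w + 1) * ((w - 1) ^ 2 + w ^ 2)) := by
    nlinarith [mul_nonneg w0 (sq_nonneg (w - 11 / 9)), sq_nonneg (w - 11 / 9)]
  have a5 : 0 < (2 * w + 1) * ((w - 1) ^ 2 + w ^ 2) :=
    mul_pos (by positivity) (by nlinarith [sq_nonneg (w - 1 / 2)])
  rw [← hw'] at h5
  obtain ⟨N, hN⟩ : ∃ N, N = normSq (1 + x + 1) * normSq ((1 + x) * (1 + x) + 1) := ⟨_, rfl⟩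
  rw [← hN] at h5 a3
  have N0 : 0 < N := lt_of_lt_of_le a5 a3
  have F0 := normSq_nonneg (f p z)
  refine le_of_mul_le_mul_right ?_ N0
  rw [h5]
  nlinarith [mul_le_mul_of_nonneg_left (a4.trans (mul_le_mul_of_nonneg_left a3 (by norm_num))) F0]

end Pool.Agent.MP_d3fa2a_an.Q4
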